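import Pool.Agent.H433.CP.Stm

/-! CP-P1: roots and critical values of a polynomial with small critical points (helper115 for
helper433). -/

set_option autoImplicit false

namespace Pool.Agent.H115.CP

open Finset Polynomial Pool.Agent.H433.CP

theorem prod_sub_le {ρ r : ℝ} (hρ : 0 ≤ ρ) (w : ℂ) (hw : ‖w‖ ≤ r) : ∀ (m : ℕ) (c : Fin m → ℂ),
    (∀ i, ‖c i‖ ≤ ρ) → ‖∏ i, (w - c i) - w ^ m‖ ≤ (r + ρ) ^ m - r ^ m := by
  have hr : 0 ≤ r := (norm_nonneg _).trans hw
  intro m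
  induction m with
  | zero =>
    intro c _
    simp
  | succ m ih =>
    intro c hc
    rw [Fin.prod_univ_succ]
    have h1 := ih (fun i => c i.succ) (fun i => hc i.succ)
    have e : (w - c 0) * ∏ i : Fin m, (w - c i.succ) - w ^ (m + 1) =
        (w - c 0) * (∏ i : Fin m, (w - c i.succ) - w ^ m) - c 0 * w ^ m := by ring
    rw [e]
    have h2 : ‖w - c 0‖ ≤ r + ρ := (norm_sub_le _ _).trans (add_le_add hw (hc 0))
    have h3 : ‖w ^ m‖ ≤ r ^ m := by
      rw [norm_pow]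
      exact pow_le_pow_left₀ (norm_nonneg _) hw m
    calc ‖(w - c 0) * (∏ i : Fin m, (w - c i.succ) - w ^ m) - c 0 * w ^ m‖
        ≤ ‖(w - c 0) * (∏ i : Fin m, (w - c i.succ) - w ^ m)‖ + ‖c 0 * w ^ m‖ := norm_sub_le _ _
      _ ≤ (r + ρ) * ((r + ρ) ^ m - r ^ m) + ρ * r ^ m := by
          rw [norm_mul, norm_mul]
          exact add_le_add (mul_le_mul h2 h1 (norm_nonneg _) (by linarith))
            (mul_le_mul (hc 0) h3 (norm_nonneg _) hρ)
      _ = (r + ρ) ^ (m + 1) - r ^ (m + 1) := by ring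

theorem pow_sub_le {ρ r : ℝ} (hρ : 0 ≤ ρ) (hr : ρ ≤ r) : ∀ m : ℕ,
    r * ((r + ρ) ^ m - r ^ m) ≤ (2 ^ m - 1) * (ρ * r ^ m) := by
  have hr0 : 0 ≤ r := hρ.trans hr
  intro m
  induction m with
  | zero => simp
  | succ m ih =>
    have h1 : (1 : ℝ) ≤ 2 ^ m := one_le_pow₀ (by norm_num)
    have h2 : r * ((r + ρ) ^ (m + 1) - r ^ (m + 1)) =
        (r + ρ) * (r * ((r + ρ) ^ m - r ^ m)) + ρ * r ^ (m + 1) := by ring
    rw [h2]
    have h3 : (r + ρ) * (r * ((r + ρ) ^ m - r ^ m)) ≤ (r + ρ) * ((2 ^ m - 1) * (ρ * r ^ m)) :=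
      mul_le_mul_of_nonneg_left ih (by linarith)
    have h4 : (r + ρ) * ((2 ^ m - 1) * (ρ * r ^ m)) ≤ (2 * r) * ((2 ^ m - 1) * (ρ * r ^ m)) :=
      mul_le_mul_of_nonneg_right (by linarith)
        (mul_nonneg (by linarith) (mul_nonneg hρ (pow_nonneg hr0 _)))
    have h5 : (2 * r) * ((2 ^ m - 1) * (ρ * r ^ m)) + ρ * r ^ (m + 1) =
        (2 ^ (m + 1) - 1) * (ρ * r ^ (m + 1)) := by ring
    linarith

theorem p1 : S_P1 := by
  intro m A hA
  refine ⟨A + (m + 1) * 2 ^ m + 1, ?_, ?_⟩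
  · have : (0 : ℝ) ≤ (m + 1) * 2 ^ m := by positivity
    linarith
  intro p c ρ hρ _ _ hder hc h0
  have hm1 : (0 : ℝ) < (m : ℝ) + 1 := by positivity
  have hnm : ‖((m : ℂ) + 1)‖ = (m : ℝ) + 1 := by
    have : ((m : ℂ) + 1) = ((m + 1 : ℕ) : ℂ) := by push_cast; rfl
    rw [this, Complex.norm_natCast]
    push_cast
    rfl
  have hev : ∀ w : ℂ, (derivative p).eval w = ((m : ℂ) + 1) * ∏ i, (w - c i) := by
    intro w
    rw [hder, eval_mul, eval_C, eval_prod]
    congr 1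
    exact Finset.prod_congr rfl fun i _ => by rw [eval_sub, eval_X, eval_C]
  -- the bound on a disc
  have hq : ∀ r : ℝ, 0 ≤ r → ∀ z : ℂ, ‖z‖ ≤ r →
      ‖(p.eval z - z ^ (m + 1)) - (p.eval 0 - 0 ^ (m + 1))‖ ≤
        ((m : ℝ) + 1) * ((r + ρ) ^ m - r ^ m) * ‖z - 0‖ := by
    intro r hr z hz
    have hd : ∀ w : ℂ, HasDerivAt (fun w => p.eval w - w ^ (m + 1))
        (((m : ℂ) + 1) * (∏ i, (w - c i) - w ^ m)) w := by
      intro w
      have h1 := (p.hasDerivAt w).sub (hasDerivAt_pow (m + 1) w)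
      rw [hev w] at h1
      have e : ((m : ℂ) + 1) * ∏ i, (w - c i) - ((m + 1 : ℕ) : ℂ) * w ^ (m + 1 - 1) =
          ((m : ℂ) + 1) * (∏ i, (w - c i) - w ^ m) := by
        rw [Nat.add_sub_cancel]
        push_cast
        ring
      rw [e] at h1
      exact h1
    refine Convex.norm_image_sub_le_of_norm_deriv_le (𝕜 := ℂ)
      (f := fun w => p.eval w - w ^ (m + 1)) (s := Metric.closedBall (0 : ℂ) r)
      (fun w _ => (hd w).differentiableAt) (fun w hw => ?_) (convex_closedBall _ _)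
      (Metric.mem_closedBall_self hr) (by rw [mem_closedBall_zero_iff]; exact hz)
    rw [(hd w).deriv, norm_mul, hnm]
    exact mul_le_mul_of_nonneg_left
      (prod_sub_le hρ.le w (mem_closedBall_zero_iff.1 hw) m c hc) hm1.le
  constructor
  · intro z hz
    rcases le_or_gt ‖z‖ ρ with h | h
    · have h1 : (0 : ℝ) ≤ (m + 1) * 2 ^ m := by positivity
      have h2 : 0 ≤ (A + (m + 1) * 2 ^ m) * ρ := by positivity
      linarith
    · have h1 := hq ‖z‖ (norm_nonneg _) z le_rfl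
      rw [hz, zero_pow (Nat.succ_ne_zero m), sub_zero, zero_sub, sub_zero] at h1
      have h2 : ‖z ^ (m + 1)‖ ≤ ‖-z ^ (m + 1) - p.eval 0‖ + ‖p.eval 0‖ := by
        have := norm_add_le (-z ^ (m + 1) - p.eval 0) (p.eval 0)
        rw [sub_add_cancel, norm_neg] at this
        exact this
      rw [norm_pow] at h2
      have h3 := pow_sub_le hρ.le h.le m
      have hz0 : 0 < ‖z‖ := hρ.trans h
      have hzm : 0 < ‖z‖ ^ m := by positivity
      have h4 : ρ ^ m ≤ ‖z‖ ^ m := pow_le_pow_left₀ hρ.le h.le m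
      have h5 : A * ρ ^ (m + 1) ≤ A * (ρ * ‖z‖ ^ m) := by
        rw [pow_succ, mul_comm (ρ ^ m) ρ]
        exact mul_le_mul_of_nonneg_left (mul_le_mul_of_nonneg_left h4 hρ.le) hA
      have h6 : ((m : ℝ) + 1) * ((‖z‖ + ρ) ^ m - ‖z‖ ^ m) * ‖z‖ ≤
          ((m : ℝ) + 1) * ((2 ^ m - 1) * (ρ * ‖z‖ ^ m)) := by
        have := mul_le_mul_of_nonneg_left h3 hm1.le
        linarith
      have h7 : 0 ≤ ((m : ℝ) + 1) * (ρ * ‖z‖ ^ m) := by positivity
      have h8 : ‖z‖ * ‖z‖ ^ m ≤ ((A + (m + 1) * 2 ^ m + 1) * ρ) * ‖z‖ ^ m := by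
        have e1 : ‖z‖ * ‖z‖ ^ m = ‖z‖ ^ (m + 1) := by ring
        have h9 : 0 ≤ ρ * ‖z‖ ^ m := by positivity
        rw [e1]
        linarith
      exact le_of_mul_le_mul_right h8 hzm
  · intro i
    have hd : ∀ w : ℂ, HasDerivAt (fun w => p.eval w)
        (((m : ℂ) + 1) * ∏ i, (w - c i)) w := by
      intro w
      have h1 := p.hasDerivAt w
      rw [hev w] at h1
      exact h1
    have h1 := Convex.norm_image_sub_le_of_norm_deriv_le (𝕜 := ℂ)
      (f := fun w => p.eval w) (s := Metric.closedBall (0 : ℂ) ρ)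
      (C := ((m : ℝ) + 1) * (ρ + ρ) ^ m)
      (fun w _ => (hd w).differentiableAt) (fun w hw => by
        rw [(hd w).deriv, norm_mul, hnm]
        refine mul_le_mul_of_nonneg_left ?_ hm1.le
        have hw' := mem_closedBall_zero_iff.1 hw
        have h2 := prod_sub_le hρ.le w hw' m c hc
        have h3 : ‖w ^ m‖ ≤ ρ ^ m := by
          rw [norm_pow]
          exact pow_le_pow_left₀ (norm_nonneg _) hw' m
        have h4 := norm_add_le (∏ i, (w - c i) - w ^ m) (w ^ m)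
        rw [sub_add_cancel] at h4
        linarith) (convex_closedBall _ _)
      (Metric.mem_closedBall_self hρ.le) (by rw [mem_closedBall_zero_iff]; exact hc i)
    rw [sub_zero] at h1
    have h2 : ‖p.eval (c i)‖ ≤ ‖p.eval (c i) - p.eval 0‖ + ‖p.eval 0‖ := by
      have := norm_add_le (p.eval (c i) - p.eval 0) (p.eval 0)
      rw [sub_add_cancel] at this
      exact this
    have h3 : ((m : ℝ) + 1) * (ρ + ρ) ^ m * ‖c i‖ ≤ ((m : ℝ) + 1) * (ρ + ρ) ^ m * ρ :=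
      mul_le_mul_of_nonneg_left (hc i) (by positivity)
    have h4 : ((m : ℝ) + 1) * (ρ + ρ) ^ m * ρ = ((m : ℝ) + 1) * 2 ^ m * ρ ^ (m + 1) := by
      have : ρ + ρ = 2 * ρ := by ring
      rw [this, mul_pow, pow_succ]
      ring
    have h5 : 0 < ρ ^ (m + 1) := by positivity
    linarith

end Pool.Agent.H115.CP
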